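import Pool.Agent.Helper32.RankTwoProof

set_option autoImplicit false

open Pool.Agent.Helper32.RankTwo

/-- Characterization of the rank-two groups `ℤ/n₁ × ℤ/n₂`, `2 ≤ n₁ ∣ n₂`, with `φ_±(G,[0,s]) = 2`,
for every `s`. -/
theorem Pool.Agent.Results.MP_51dd51_co.RankTwo.result
    (s n₁ n₂ : ℕ) (h₁ : 2 ≤ n₁) (h₂ : n₁ ∣ n₂) (h₃ : 0 < n₂)
    (G : Type*) [AddCommGroup G] (e : G ≃+ ZMod n₁ × ZMod n₂) :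
    phi G s = 2 ↔
      Cond ((2 * s + 1) / n₁) (n₂ / n₁) ∨
        (Odd n₁ ∧ n₁ ∣ s + 1 ∧ 2 * (n₂ / n₁) = ((2 * s + 1) / n₁) ^ 2 + 1) :=
  main s n₁ n₂ h₁ h₂ h₃ G e
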